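import Mathlib
import Pool.Agent.Helper6.PW.Defs
import Pool.Agent.Helper58.LT.ClassDefs

/-!
# Project PS2: power saving for Lehmer numbers, smaller critical class: definitions

`DataC`: `n = m g q b₁ b₂ f`, `m` an initial product whose next prime is at least `2^θ'`, `q` a prime of
dyadic size `2^θ`, `b₁, b₂` of size `(2^β / 2^θ')^(1/2)` up to a factor `e^W`.
`critB n l b ε`: the critical class at the scale of a dyadic block.
-/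

namespace Pool.Agent.Helper58.PS

open Finset Pool.Agent.Helper6.Lehmer Pool.Agent.Helper6.LehmerCount Pool.Agent.Helper58.LT

/-- Case C: `n = m * g * q * b₁ * b₂ * f` -/
def DataC (n l W k μ ν θ' θ β : ℕ) : Prop :=
  ∃ m g q b₁ b₂ f : ℕ, n = m * g * q * b₁ * b₂ * f ∧ m ∈ Lset k W ((2 : ℝ) ^ θ') (2 ^ μ) ∧
    2 ^ ν ≤ g ∧ g < 2 ^ (ν + 1) ∧ q.Prime ∧ 2 ^ θ ≤ q ∧ q < 2 ^ (θ + 1) ∧
    (b₁ : ℝ) ≤ (2 : ℝ) ^ (((β : ℝ) - θ') / 2) * Real.exp W ∧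
    (b₂ : ℝ) ≤ (2 : ℝ) ^ (((β : ℝ) - θ') / 2) * Real.exp W ∧
    1 < f ∧ 2 ^ l ≤ (m * g * q * b₁ * b₂) ^ 2 ∧
    Real.log k - Real.exp W / (2 : ℝ) ^ β < lam (m * g * q * b₁ * b₂)

/-- numerical constraints in case C -/
structure ConC (l W μ ν θ' θ β : ℕ) : Prop where
  size : (μ : ℝ) + ν + θ ≤ (l : ℝ) / 2 - (β : ℝ) / 2 + θ' + W
  third : 3 * (θ : ℝ) ≤ β + W
  grow : (2 : ℝ) ^ θ' ≤ 4 * W * 2 ^ μ
  le : β ≤ l

/-- the prime factors of `n` that are at least `2^β e^{-W}` -/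
noncomputable def clu (n β W : ℕ) : Finset ℕ :=
  n.primeFactors.filter (fun q : ℕ => (2 : ℝ) ^ β * Real.exp (-(W : ℝ)) ≤ q)

/-- the cluster: `G` is the set of the prime factors of `n` of size about `P`, all others are at most about
`P^(1/3)`; `w` is the tolerance of NS -/
structure Clus (n l b w i K₀ P : ℕ) (G : Finset ℕ) : Prop where
  sub : G ⊆ n.primeFactors
  lo : ∀ q ∈ G, Real.log P - K₀ * w ≤ Real.log q
  hi : ∀ q ∈ G, q ≤ P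
  small : ∀ q ∈ n.primeFactors, q ∉ G → Real.log q ≤ Real.log P / 3 + K₀ * w
  card1 : i + 2 ≤ #G
  card2 : #G ≤ 2 * i
  size : |(l : ℝ) * Real.log 2 - (2 * i + 1) * Real.log P| ≤ K₀ * w
  P1 : 2 ^ b < P
  P2 : P ≤ 2 ^ (b + 1)

/-- the critical class at the scale of the block `n ≤ 2^l`, largest prime factor about `2^b` -/
def critB (n l b : ℕ) (ε : ℝ) : Prop :=
  ∃ i : ℕ, 3 ≤ i ∧ |(l : ℝ) / b - (2 * i + 1)| < ε ∧
    i + 2 ≤ #(n.primeFactors.filter (fun q : ℕ => (2 : ℝ) ^ ((1 - ε) * b) ≤ (q : ℝ))) ∧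
    #(n.primeFactors.filter (fun q : ℕ => (2 : ℝ) ^ ((1 - ε) * b) ≤ (q : ℝ))) < 2 * i ∧
    ∀ q ∈ n.primeFactors, (2 : ℝ) ^ ((1 - ε) * b) ≤ (q : ℝ) ∨ (q : ℝ) < (2 : ℝ) ^ (ε * l)

end Pool.Agent.Helper58.PS
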