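import Mathlib
import Pool.Agent.Helper80.PS.SumUp
import Pool.Agent.Helper77.PS.Blk2

/-!
# PS-7: the theorem for sets of Lehmer numbers (project PS2)
-/

namespace Pool.Agent.Helper58.PS

open Finset Pool.Agent.Helper6.Lehmer Pool.Agent.Helper6.LehmerCount Pool.Agent.Helper58.LT
open Pool.Agent.Helper6.PW

/-- the main theorem of PS2 for sets of Lehmer numbers -/
theorem ps2 (ε : ℝ) (hε : 0 < ε) : ∃ δ : ℝ, 0 < δ ∧ ∃ x₀ : ℕ, ∀ x : ℕ, x₀ ≤ x →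
    ∀ S : Finset ℕ, (∀ n ∈ S, IsLehmer n ∧ n ≤ x ∧ ∃ P, IsP n P ∧ (x : ℝ) ^ ε ≤ P ∧
      ¬ ∃ i : ℕ, 3 ≤ i ∧ |Real.log x / Real.log P - (2 * i + 1)| < ε ∧
        i + 2 ≤ #(n.primeFactors.filter (fun q : ℕ => (P : ℝ) ^ (1 - ε) ≤ (q : ℝ))) ∧
        #(n.primeFactors.filter (fun q : ℕ => (P : ℝ) ^ (1 - ε) ≤ (q : ℝ))) < 2 * i ∧
        ∀ q ∈ n.primeFactors, (P : ℝ) ^ (1 - ε) ≤ (q : ℝ) ∨ (q : ℝ) < (x : ℝ) ^ ε) →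
    (#S : ℝ) ≤ (x : ℝ) ^ ((1 : ℝ) / 2 - δ) :=
  Pool.Agent.Helper80.PS.ps_main_of (fun ε hε hε4 U hU => blk2 ε hε hε4 U hU) ε hε

end Pool.Agent.Helper58.PS
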